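import Pool.Agent.helper60.MW.SpecC

/-!
Row mw:LFS. A thick set gives a solution of the finite problem.
-/

set_option autoImplicit false

namespace Pool.Agent.MW

open MeasureTheory Set Pool.Agent.helper17.Worm

/-! Polygons -/

theorem LFS_clamp (c x : ℝ) (hc : 0 ≤ c) :
    max 0 (min x c) + max 0 (min (x - c) 1) = max 0 (min x (c + 1)) := by
  rcases le_total x c with h3 | h3
  · rw [min_eq_left h3, min_eq_left (by linarith : x - c ≤ 1), max_eq_left (by linarith : x - c ≤ 0),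
      min_eq_left (by linarith : x ≤ c + 1), add_zero]
  · rw [min_eq_right h3, max_eq_right hc]
    rcases le_total (x - c) 1 with h4 | h4
    · rw [min_eq_left h4, max_eq_right (by linarith : 0 ≤ x - c), min_eq_left (by linarith : x ≤ c + 1),
        max_eq_right (by linarith : 0 ≤ x)]
      ring
    · rw [min_eq_right h4, max_eq_right zero_le_one, min_eq_right (by linarith : c + 1 ≤ x),
        max_eq_right (by linarith : 0 ≤ c + 1)]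

theorem LFS_sum (n : ℕ) (x : ℝ) :
    ∑ i ∈ Finset.range n, max 0 (min (x - i) 1) = max 0 (min x n) := by
  induction n with
  | zero =>
    rw [Finset.sum_range_zero, Nat.cast_zero, max_eq_left (min_le_right x 0)]
  | succ n ih =>
    rw [Finset.sum_range_succ, ih, LFS_clamp n x (Nat.cast_nonneg n)]
    push_cast
    rfl

theorem LFS_poly (n : ℕ) (hn : 1 ≤ n) (Q : ℕ → ℂ) (hQ0 : Q 0 = 0) (c : ℝ)
    (hQ : ∀ i < n, ‖Q (i + 1) - Q i‖ ≤ c / n) : ∃ f : ℝ → ℂ,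
    (∀ s ∈ Icc (0 : ℝ) 1, ∀ t ∈ Icc (0 : ℝ) 1, ‖f s - f t‖ ≤ c * |s - t|) ∧
    ∀ j ≤ n, f ((j : ℝ) / n) = Q j := by
  have hn0 : (0 : ℝ) < n := by exact_mod_cast hn
  have hord : ∀ s t : ℝ, 0 ≤ s → t ≤ 1 → s ≤ t →
      ‖(∑ i ∈ Finset.range n, ((max 0 (min (n * s - i) 1) : ℝ) : ℂ) * (Q (i + 1) - Q i)) -
        ∑ i ∈ Finset.range n, ((max 0 (min (n * t - i) 1) : ℝ) : ℂ) * (Q (i + 1) - Q i)‖ ≤
        c * (t - s) := by
    intro s t hs ht hst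
    rw [← Finset.sum_sub_distrib]
    have h1 : ∀ i ∈ Finset.range n,
        ‖((max 0 (min (n * s - i) 1) : ℝ) : ℂ) * (Q (i + 1) - Q i) -
          ((max 0 (min (n * t - i) 1) : ℝ) : ℂ) * (Q (i + 1) - Q i)‖ ≤
        (max 0 (min (n * t - i) 1) - max 0 (min (n * s - i) 1)) * (c / n) := by
      intro i hi
      have h2 : max 0 (min (n * s - i) 1) ≤ max 0 (min (n * t - (i : ℝ)) 1) := by
        refine max_le_max_left 0 (min_le_min_right 1 ?_)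
        have := mul_le_mul_of_nonneg_left hst hn0.le
        linarith
      rw [← sub_mul, norm_mul, ← Complex.ofReal_sub, Complex.norm_real, Real.norm_eq_abs,
        abs_of_nonpos (by linarith)]
      refine (mul_le_mul_of_nonneg_left (hQ i (Finset.mem_range.1 hi)) (by linarith)).trans ?_
      exact le_of_eq (by ring)
    refine (norm_sum_le _ _).trans ((Finset.sum_le_sum h1).trans ?_)
    rw [← Finset.sum_mul, Finset.sum_sub_distrib, LFS_sum, LFS_sum]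
    have e1 : max 0 (min (n * t) (n : ℝ)) = n * t := by
      have h5 : n * t ≤ (n : ℝ) * 1 := mul_le_mul_of_nonneg_left ht hn0.le
      rw [min_eq_left (by linarith), max_eq_right (mul_nonneg hn0.le (hs.trans hst))]
    have e2 : max 0 (min (n * s) (n : ℝ)) = n * s := by
      have h5 : n * s ≤ (n : ℝ) * 1 := mul_le_mul_of_nonneg_left (hst.trans ht) hn0.le
      rw [min_eq_left (by linarith), max_eq_right (mul_nonneg hn0.le hs)]
    rw [e1, e2]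
    exact le_of_eq (by field_simp)
  refine ⟨fun t => ∑ i ∈ Finset.range n, ((max 0 (min (n * t - i) 1) : ℝ) : ℂ) * (Q (i + 1) - Q i),
    ?_, ?_⟩
  · intro s hs t ht
    rcases le_total s t with hst | hst
    · refine (hord s t hs.1 ht.2 hst).trans ?_
      rw [abs_sub_comm, abs_of_nonneg (by linarith)]
    · rw [norm_sub_rev]
      refine (hord t s ht.1 hs.2 hst).trans ?_
      rw [abs_of_nonneg (by linarith)]
  · intro j hj
    show ∑ i ∈ Finset.range n, ((max 0 (min (n * ((j : ℝ) / n) - i) 1) : ℝ) : ℂ) * (Q (i + 1) - Q i) = Q j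
    have h1 : ∀ i ∈ Finset.range n, ((max 0 (min (n * ((j : ℝ) / n) - i) 1) : ℝ) : ℂ) * (Q (i + 1) - Q i) =
        if i < j then Q (i + 1) - Q i else 0 := by
      intro i _
      rw [mul_div_cancel₀ (j : ℝ) hn0.ne']
      by_cases hij : i < j
      · rw [if_pos hij]
        have h2 : (i : ℝ) + 1 ≤ j := by exact_mod_cast hij
        rw [min_eq_right (by linarith), max_eq_right zero_le_one]
        simp
      · rw [if_neg hij]
        have h2 : (j : ℝ) ≤ i := by exact_mod_cast not_lt.1 hij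
        rw [min_eq_left (by linarith), max_eq_left (by linarith)]
        simp
    rw [Finset.sum_congr rfl h1, ← Finset.sum_filter]
    have h2 : (Finset.range n).filter (fun i => i < j) = Finset.range j := by
      ext i
      simp only [Finset.mem_filter, Finset.mem_range]
      omega
    rw [h2, Finset.sum_range_sub, hQ0, sub_zero]

/-! Counting squares -/

/-- half open square number `s` -/
noncomputable def LFS_h (m : ℕ) (s : ℤ × ℤ) : Set ℂ := rc ((s.1 : ℝ) / m) (1 / m) ((s.2 : ℝ) / m) (1 / m)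

theorem LFS_sub (m : ℕ) (s : ℤ × ℤ) : LFS_h m s ⊆ csq m s := by
  intro z hz
  obtain ⟨⟨h1, h2⟩, h3, h4⟩ := mem_rc.1 hz
  refine ⟨⟨h1, ?_⟩, h3, ?_⟩
  · rw [add_div]; exact h2.le
  · rw [add_div]; exact h4.le

theorem LFS_disj (m : ℕ) (hm : 1 ≤ m) (s s' : ℤ × ℤ) (h : s ≠ s') :
    Disjoint (LFS_h m s) (LFS_h m s') := by
  rw [Set.disjoint_left]
  intro z hz hz'
  obtain ⟨⟨a1, a2⟩, a3, a4⟩ := mem_rc.1 hz
  obtain ⟨⟨b1, b2⟩, b3, b4⟩ := mem_rc.1 hz'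
  have hm0 : (0 : ℝ) < m := by exact_mod_cast hm
  rw [← add_div, lt_div_iff₀ hm0] at a2 a4 b2 b4
  rw [div_le_iff₀ hm0] at a1 a3 b1 b3
  apply h
  have e1 : s.1 < s'.1 + 1 := by
    have : (s.1 : ℝ) < s'.1 + 1 := by linarith
    exact_mod_cast this
  have e2 : s'.1 < s.1 + 1 := by
    have : (s'.1 : ℝ) < s.1 + 1 := by linarith
    exact_mod_cast this
  have e3 : s.2 < s'.2 + 1 := by
    have : (s.2 : ℝ) < s'.2 + 1 := by linarith
    exact_mod_cast this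
  have e4 : s'.2 < s.2 + 1 := by
    have : (s'.2 : ℝ) < s.2 + 1 := by linarith
    exact_mod_cast this
  exact Prod.ext (by omega) (by omega)

theorem LFS_card (m : ℕ) (hm : 1 ≤ m) (Y : Set ℂ) (F : Finset (ℤ × ℤ)) (hF : ∀ s ∈ F, csq m s ⊆ Y) :
    ENNReal.ofReal ((F.card : ℝ) / m ^ 2) ≤ volume Y := by
  have hm0 : (0 : ℝ) < m := by exact_mod_cast hm
  have h1 : volume (⋃ s ∈ F, LFS_h m s) = ∑ s ∈ F, volume (LFS_h m s) := by
    refine measure_biUnion_finset ?_ ?_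
    · intro s _ s' _ hne
      exact LFS_disj m hm s s' hne
    · intro s _
      exact measurableSet_rc _ _ _ _
  have h2 : ∀ s ∈ F, volume (LFS_h m s) = ENNReal.ofReal (1 / m * (1 / m)) := by
    intro s _
    exact volume_rc (by positivity) (by positivity)
  rw [Finset.sum_congr rfl h2, Finset.sum_const, nsmul_eq_mul] at h1
  have h3 : ENNReal.ofReal ((F.card : ℝ) / m ^ 2) = (F.card : ENNReal) * ENNReal.ofReal (1 / m * (1 / m)) := by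
    rw [← ENNReal.ofReal_natCast, ← ENNReal.ofReal_mul (Nat.cast_nonneg _)]
    congr 1
    field_simp
  rw [h3, ← h1]
  refine measure_mono (iUnion₂_subset ?_)
  intro s hs
  exact (LFS_sub m s).trans (hF s hs)

theorem LFS_finite (m : ℕ) (hm : 1 ≤ m) (Y : Set ℂ) (hv : volume Y ≠ ⊤) :
    {s : ℤ × ℤ | csq m s ⊆ Y}.Finite := by
  have hm0 : (0 : ℝ) < m := by exact_mod_cast hm
  by_contra hinf
  obtain ⟨N, hN⟩ := exists_nat_gt ((volume Y).toReal * m ^ 2)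
  obtain ⟨F, hF, hc⟩ := Set.Infinite.exists_subset_card_eq hinf N
  have h1 := LFS_card m hm Y F (fun s hs => hF hs)
  rw [hc] at h1
  have h2 := (ENNReal.ofReal_le_iff_le_toReal hv).1 h1
  rw [div_le_iff₀ (by positivity)] at h2
  linarith

/-! The main row -/

theorem LFS_round (n : ℕ) (hn : 1 ≤ n) (a : ℂ) :
    ∃ α : ℤ × ℤ, ‖(⟨(α.1 : ℝ) / n ^ 2, (α.2 : ℝ) / n ^ 2⟩ : ℂ) - a‖ ≤ 1 / n ^ 2 := by
  have hn0 : (0 : ℝ) < (n : ℝ) ^ 2 := by
    have : (0 : ℝ) < n := by exact_mod_cast hn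
    positivity
  refine ⟨(round ((n : ℝ) ^ 2 * a.re), round ((n : ℝ) ^ 2 * a.im)), ?_⟩
  refine (Complex.norm_le_abs_re_add_abs_im _).trans ?_
  have key : ∀ x : ℝ, |(round ((n : ℝ) ^ 2 * x) : ℝ) / n ^ 2 - x| ≤ 1 / 2 / n ^ 2 := by
    intro x
    have h1 := abs_sub_round ((n : ℝ) ^ 2 * x)
    have h2 : (round ((n : ℝ) ^ 2 * x) : ℝ) / n ^ 2 - x =
        -(((n : ℝ) ^ 2 * x - round ((n : ℝ) ^ 2 * x)) / n ^ 2) := by
      field_simp
      ring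
    rw [h2, abs_neg, abs_div, abs_of_pos hn0]
    exact div_le_div_of_nonneg_right h1 hn0.le
  have k1 := key a.re
  have k2 := key a.im
  have e : 1 / 2 / (n : ℝ) ^ 2 + 1 / 2 / n ^ 2 = 1 / n ^ 2 := by ring
  rw [← e]
  exact add_le_add k1 k2

theorem LFS_rot (n : ℕ) (hn : 1 ≤ n) (a : ℂ) (ha : ‖a‖ = 1) (α : ℤ × ℤ)
    (h : ‖(⟨(α.1 : ℝ) / n ^ 2, (α.2 : ℝ) / n ^ 2⟩ : ℂ) - a‖ ≤ 1 / n ^ 2) : Rot n α := by
  have hn1 : (1 : ℝ) ≤ n := by exact_mod_cast hn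
  have hn0 : (1 : ℝ) ≤ (n : ℝ) ^ 2 := one_le_pow₀ hn1
  have h0 : (0 : ℝ) < (n : ℝ) ^ 2 := by linarith
  set A : ℂ := ⟨(α.1 : ℝ) / n ^ 2, (α.2 : ℝ) / n ^ 2⟩ with hA
  have h1 : ‖A‖ ≤ 1 + 1 / n ^ 2 := by
    have := norm_le_insert' A a
    rw [ha] at this
    linarith
  have h2 : 1 - 1 / n ^ 2 ≤ ‖A‖ := by
    have := norm_sub_norm_le a A
    rw [ha, norm_sub_rev] at this
    linarith
  have h3 : ‖A‖ ^ 2 = ((α.1 : ℝ) ^ 2 + (α.2 : ℝ) ^ 2) / (n ^ 2) ^ 2 := by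
    rw [← Complex.normSq_eq_norm_sq, Complex.normSq_apply]
    show (α.1 : ℝ) / n ^ 2 * ((α.1 : ℝ) / n ^ 2) + (α.2 : ℝ) / n ^ 2 * ((α.2 : ℝ) / n ^ 2) = _
    ring
  have h4 : (α.1 : ℝ) ^ 2 + (α.2 : ℝ) ^ 2 = (n ^ 2 * ‖A‖) ^ 2 := by
    rw [mul_pow, h3]
    field_simp
  have h5 : (n : ℝ) ^ 2 * ‖A‖ ≤ n ^ 2 + 1 := by
    have := mul_le_mul_of_nonneg_left h1 h0.le
    rw [mul_add, mul_one, mul_one_div_cancel h0.ne'] at this
    exact this
  have h6 : (n : ℝ) ^ 2 - 1 ≤ n ^ 2 * ‖A‖ := by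
    have := mul_le_mul_of_nonneg_left h2 h0.le
    rw [mul_sub, mul_one, mul_one_div_cancel h0.ne'] at this
    exact this
  constructor
  · have h7 : ((n : ℝ) ^ 2 - 1) ^ 2 ≤ (α.1 : ℝ) ^ 2 + (α.2 : ℝ) ^ 2 := by
      rw [h4]
      exact pow_le_pow_left₀ (by linarith) h6 2
    exact_mod_cast h7
  · have h7 : (α.1 : ℝ) ^ 2 + (α.2 : ℝ) ^ 2 ≤ ((n : ℝ) ^ 2 + 1) ^ 2 := by
      rw [h4]
      exact pow_le_pow_left₀ (by positivity) h5 2
    exact_mod_cast h7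

theorem LFS_near (m n : ℕ) (hm : 1 ≤ m) (hn : 1 ≤ n) (s c : ℤ) (x : ℝ)
    (h : |s * (n : ℤ) ^ 4 - m * c| ≤ 2 * (n : ℤ) ^ 4) (h1 : (s : ℝ) / m ≤ x) (h2 : x ≤ ((s : ℝ) + 1) / m) :
    |x - (c : ℝ) / n ^ 4| ≤ 3 / m := by
  have hm0 : (0 : ℝ) < m := by exact_mod_cast hm
  have hn1 : (0 : ℝ) < n := by exact_mod_cast hn
  have hn0 : (0 : ℝ) < (n : ℝ) ^ 4 := by positivity
  have h3 : |(s : ℝ) * n ^ 4 - m * c| ≤ 2 * (n : ℝ) ^ 4 := by exact_mod_cast h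
  rw [abs_le] at h3
  have e1 : (s : ℝ) / m - (c : ℝ) / n ^ 4 = ((s : ℝ) * n ^ 4 - m * c) / (m * n ^ 4) := by
    field_simp
  have h4 : (s : ℝ) / m - (c : ℝ) / n ^ 4 ≤ 2 / m := by
    rw [e1, div_le_div_iff₀ (by positivity) hm0]
    nlinarith [h3.2]
  have h5 : -(2 / m) ≤ (s : ℝ) / m - (c : ℝ) / n ^ 4 := by
    rw [e1, ← neg_div, div_le_div_iff₀ hm0 (by positivity)]
    nlinarith [h3.1]
  rw [add_div] at h2
  have e2 : (3 : ℝ) / m = 2 / m + 1 / m := by ring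
  rw [abs_le, e2]
  have : 0 < 1 / (m : ℝ) := by positivity
  constructor <;> linarith

theorem LFS : LFS_stmt := by
  intro m n δ Y hm hmn hδ hY hv hcov
  have hn : 1 ≤ n := by omega
  have hm0 : (0 : ℝ) < m := by exact_mod_cast hm
  have hn0 : (0 : ℝ) < n := by exact_mod_cast hn
  have hn8 : (8 : ℝ) * m ≤ n := by exact_mod_cast hmn
  have hm1 : (1 : ℝ) ≤ m := by exact_mod_cast hm
  have hfin := LFS_finite m hm Y hv
  refine ⟨hfin.toFinset, ?_, ?_⟩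
  · intro P hP
    -- the polygon
    let Q : ℕ → ℂ := fun k => if h : k < n + 1 then
      (⟨((P ⟨k, h⟩).1 : ℝ) / n ^ 2, ((P ⟨k, h⟩).2 : ℝ) / n ^ 2⟩ : ℂ) else 0
    have hQv : ∀ i : Fin (n + 1), Q i = (⟨((P i).1 : ℝ) / n ^ 2, ((P i).2 : ℝ) / n ^ 2⟩ : ℂ) := by
      intro i
      show (if h : (i : ℕ) < n + 1 then
        (⟨((P ⟨i, h⟩).1 : ℝ) / n ^ 2, ((P ⟨i, h⟩).2 : ℝ) / n ^ 2⟩ : ℂ) else 0) = _
      rw [dif_pos i.2]
    have hQ0 : Q 0 = 0 := by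
      have h1 := hQv 0
      rw [hP.1] at h1
      have h2 : Q 0 = (⟨(((0 : ℤ) : ℝ)) / n ^ 2, (((0 : ℤ) : ℝ)) / n ^ 2⟩ : ℂ) := h1
      rw [h2]
      apply Complex.ext <;> simp
    have hQ : ∀ i < n, ‖Q (i + 1) - Q i‖ ≤ (1 + 2 / n) / n := by
      intro i hi
      have h1 := hQv (Fin.succ ⟨i, hi⟩)
      have h2 := hQv (Fin.castSucc ⟨i, hi⟩)
      have h3 := hP.2 ⟨i, hi⟩
      have e1 : Q (i + 1) = (⟨((P (Fin.succ ⟨i, hi⟩)).1 : ℝ) / n ^ 2,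
        ((P (Fin.succ ⟨i, hi⟩)).2 : ℝ) / n ^ 2⟩ : ℂ) := h1
      have e2 : Q i = (⟨((P (Fin.castSucc ⟨i, hi⟩)).1 : ℝ) / n ^ 2,
        ((P (Fin.castSucc ⟨i, hi⟩)).2 : ℝ) / n ^ 2⟩ : ℂ) := h2
      rw [e1, e2]
      generalize P (Fin.succ ⟨i, hi⟩) = p at h3
      generalize P (Fin.castSucc ⟨i, hi⟩) = q at h3
      have h4 : ((p.1 : ℝ) - q.1) ^ 2 + ((p.2 : ℝ) - q.2) ^ 2 ≤ ((n : ℝ) + 2) ^ 2 := by exact_mod_cast h3
      have h5 : ‖((⟨(p.1 : ℝ) / n ^ 2, (p.2 : ℝ) / n ^ 2⟩ : ℂ) - ⟨(q.1 : ℝ) / n ^ 2, (q.2 : ℝ) / n ^ 2⟩)‖ ^ 2 ≤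
          ((1 + 2 / n) / n) ^ 2 := by
        rw [← Complex.normSq_eq_norm_sq, Complex.normSq_apply, Complex.sub_re, Complex.sub_im]
        show ((p.1 : ℝ) / n ^ 2 - (q.1 : ℝ) / n ^ 2) * ((p.1 : ℝ) / n ^ 2 - (q.1 : ℝ) / n ^ 2) +
          ((p.2 : ℝ) / n ^ 2 - (q.2 : ℝ) / n ^ 2) * ((p.2 : ℝ) / n ^ 2 - (q.2 : ℝ) / n ^ 2) ≤ _
        have e3 : ((p.1 : ℝ) / n ^ 2 - (q.1 : ℝ) / n ^ 2) * ((p.1 : ℝ) / n ^ 2 - (q.1 : ℝ) / n ^ 2) +
          ((p.2 : ℝ) / n ^ 2 - (q.2 : ℝ) / n ^ 2) * ((p.2 : ℝ) / n ^ 2 - (q.2 : ℝ) / n ^ 2) =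
          (((p.1 : ℝ) - q.1) ^ 2 + ((p.2 : ℝ) - q.2) ^ 2) / n ^ 4 := by
          ring
        have e4 : ((1 + 2 / (n : ℝ)) / n) ^ 2 = ((n : ℝ) + 2) ^ 2 / n ^ 4 := by
          field_simp
        rw [e3, e4]
        exact div_le_div_of_nonneg_right h4 (by positivity)
      exact le_of_sq_le_sq h5 (by positivity)
    obtain ⟨f, hf, hfQ⟩ := LFS_poly n hn Q hQ0 (1 + 2 / n) hQ
    obtain ⟨g, hg⟩ := hcov f hf
    set a : ℂ := Complex.exp (Complex.I * g.1) with ha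
    have ha1 : ‖a‖ = 1 := norm_rot g.1
    obtain ⟨α, hα⟩ := LFS_round n hn a
    obtain ⟨γ, hγ⟩ := LFS_round n hn g.2
    refine ⟨α, γ, LFS_rot n hn a ha1 α hα, ?_⟩
    intro i s hs
    rw [Set.Finite.mem_toFinset]
    show csq m s ⊆ Y
    have hi : (i : ℕ) ≤ n := Nat.lt_succ_iff.1 i.2
    have hiI : ((i : ℕ) : ℝ) / n ∈ Icc (0 : ℝ) 1 := by
      refine ⟨by positivity, ?_⟩
      rw [div_le_one hn0]
      exact_mod_cast hi
    have hball := hg _ hiI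
    rw [hfQ i hi] at hball
    have hQn : ‖Q i‖ ≤ 1 + 2 / n := by
      have h1 := hf _ hiI 0 ⟨le_refl _, zero_le_one⟩
      rw [hfQ i hi] at h1
      have h2 : f 0 = 0 := by
        have := hfQ 0 (Nat.zero_le _)
        rw [Nat.cast_zero, zero_div, hQ0] at this
        exact this
      rw [h2, sub_zero, sub_zero, abs_of_nonneg hiI.1] at h1
      refine h1.trans ?_
      have h3 : (0 : ℝ) ≤ 1 + 2 / n := by positivity
      calc (1 + 2 / (n : ℝ)) * (((i : ℕ) : ℝ) / n) ≤ (1 + 2 / (n : ℝ)) * 1 :=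
            mul_le_mul_of_nonneg_left hiI.2 h3
        _ = 1 + 2 / n := mul_one _
    have hz : (⟨(ps1 n α γ (P i) : ℝ) / n ^ 4, (ps2 n α γ (P i) : ℝ) / n ^ 4⟩ : ℂ) =
        (⟨(α.1 : ℝ) / n ^ 2, (α.2 : ℝ) / n ^ 2⟩ : ℂ) * Q i + ⟨(γ.1 : ℝ) / n ^ 2, (γ.2 : ℝ) / n ^ 2⟩ := by
      rw [hQv i]
      apply Complex.ext
      · simp only [Complex.add_re, Complex.mul_re, ps1]
        push_cast
        field_simp
      · simp only [Complex.add_im, Complex.mul_im, ps2]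
        push_cast
        field_simp
    have hzw : ‖(⟨(ps1 n α γ (P i) : ℝ) / n ^ 4, (ps2 n α γ (P i) : ℝ) / n ^ 4⟩ : ℂ) - mv g (Q i)‖ ≤
        1 / n ^ 2 * (1 + 2 / n) + 1 / n ^ 2 := by
      rw [hz]
      have e : (⟨(α.1 : ℝ) / n ^ 2, (α.2 : ℝ) / n ^ 2⟩ : ℂ) * Q i + ⟨(γ.1 : ℝ) / n ^ 2, (γ.2 : ℝ) / n ^ 2⟩ -
          mv g (Q i) = ((⟨(α.1 : ℝ) / n ^ 2, (α.2 : ℝ) / n ^ 2⟩ : ℂ) - a) * Q i +
          ((⟨(γ.1 : ℝ) / n ^ 2, (γ.2 : ℝ) / n ^ 2⟩ : ℂ) - g.2) := by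
        unfold mv
        rw [← ha]
        ring
      rw [e]
      refine (norm_add_le _ _).trans (add_le_add ?_ hγ)
      rw [norm_mul]
      exact mul_le_mul hα hQn (norm_nonneg _) (by positivity)
    intro q hq
    apply hball
    rw [Metric.mem_closedBall, dist_eq_norm]
    obtain ⟨⟨q1, q2⟩, q3, q4⟩ := hq
    have d1 := LFS_near m n hm hn s.1 _ q.re hs.1 q1 q2
    have d2 := LFS_near m n hm hn s.2 _ q.im hs.2 q3 q4
    have hqz : ‖q - (⟨(ps1 n α γ (P i) : ℝ) / n ^ 4, (ps2 n α γ (P i) : ℝ) / n ^ 4⟩ : ℂ)‖ ≤ 17 / 4 / m := by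
      have h5 : ‖q - (⟨(ps1 n α γ (P i) : ℝ) / n ^ 4, (ps2 n α γ (P i) : ℝ) / n ^ 4⟩ : ℂ)‖ ^ 2 ≤
          (17 / 4 / m) ^ 2 := by
        rw [← Complex.normSq_eq_norm_sq, Complex.normSq_apply, Complex.sub_re, Complex.sub_im]
        show (q.re - (ps1 n α γ (P i) : ℝ) / n ^ 4) * (q.re - (ps1 n α γ (P i) : ℝ) / n ^ 4) +
          (q.im - (ps2 n α γ (P i) : ℝ) / n ^ 4) * (q.im - (ps2 n α γ (P i) : ℝ) / n ^ 4) ≤ _
        have f1 := pow_le_pow_left₀ (abs_nonneg _) d1 2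
        have f2 := pow_le_pow_left₀ (abs_nonneg _) d2 2
        rw [sq_abs] at f1 f2
        have e5 : (17 / 4 / (m : ℝ)) ^ 2 = (3 / m) ^ 2 + (3 / m) ^ 2 + 1 / 16 / m ^ 2 := by ring
        have e6 : (0 : ℝ) ≤ 1 / 16 / m ^ 2 := by positivity
        rw [e5]
        nlinarith
      exact le_of_sq_le_sq h5 (by positivity)
    have h6 : q - mv g (Q i) = (q - (⟨(ps1 n α γ (P i) : ℝ) / n ^ 4, (ps2 n α γ (P i) : ℝ) / n ^ 4⟩ : ℂ)) +
        ((⟨(ps1 n α γ (P i) : ℝ) / n ^ 4, (ps2 n α γ (P i) : ℝ) / n ^ 4⟩ : ℂ) - mv g (Q i)) := by ring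
    rw [h6]
    refine (norm_add_le _ _).trans ((add_le_add hqz hzw).trans (le_trans ?_ hδ))
    have g1 : 1 / (n : ℝ) ^ 2 ≤ 1 / (64 * m) := by
      refine one_div_le_one_div_of_le (by positivity) ?_
      nlinarith
    have g2 : 2 / (n : ℝ) ≤ 1 / 4 := by
      rw [div_le_div_iff₀ hn0 (by norm_num)]
      linarith
    have g3 : 1 / (n : ℝ) ^ 2 * (1 + 2 / n) ≤ 1 / (64 * m) * (1 + 1 / 4) :=
      mul_le_mul g1 (by linarith) (by positivity) (by positivity)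
    have g4 : 17 / 4 / (m : ℝ) + (1 / (64 * m) * (1 + 1 / 4) + 1 / (64 * m)) ≤ 6 / m := by
      have : 17 / 4 / (m : ℝ) + (1 / (64 * m) * (1 + 1 / 4) + 1 / (64 * m)) =
          (17 / 4 + 1 / 64 * (1 + 1 / 4) + 1 / 64) / m := by
        field_simp
        ring
      rw [this]
      exact div_le_div_of_nonneg_right (by norm_num) hm0.le
    linarith
  · exact LFS_card m hm Y _ (fun s hs => (Set.Finite.mem_toFinset hfin).1 hs)

end Pool.Agent.MW
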