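import Pool.Agent.helper60.MW.Spec

/-!
Row mw:CHN. The chain of levels.
-/

set_option autoImplicit false

namespace Pool.Agent.MW

open MeasureTheory Set Pool.Agent.helper17.Worm

theorem CHN_mono {ℓ ℓ' : ℝ} {A : Set ℂ} (h : Cv ℓ A) (hl : ℓ ≤ ℓ') : Cv ℓ' A := by
  obtain ⟨h0, f, hf, hA⟩ := h
  exact ⟨h0.trans hl, f, hf, hA.trans (image_mono (Icc_subset_Icc_right hl))⟩

theorem CHN_K {κ a : ℝ} {m K : ℕ} (hκ : 0 < κ) (hκ2 : κ ≤ 1 / 2) (ha : 0 < a) (ha8 : a ≤ 1 / 8)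
    (hm : 1 ≤ m) (hK : KF κ a m ≤ K) : 1 ≤ K := by
  have h1 : 0 ≤ Real.log m := Real.log_nonneg (by exact_mod_cast hm)
  have h2 : 0 ≤ Real.log (1 / a) := Real.log_nonneg (by rw [le_div_iff₀ ha]; linarith)
  have h3 : 0 ≤ Real.log (1 / κ) := Real.log_nonneg (by rw [le_div_iff₀ hκ]; linarith)
  have h4 : 0 < KF κ a m := by
    unfold KF
    have : 0 < Real.log m + 3 * Real.log (1 / a) + 5 * Real.log (1 / κ) + 40 := by linarith
    positivity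
  have h5 : (0 : ℝ) < K := lt_of_lt_of_le h4 hK
  exact_mod_cast h5

theorem CHN (hPAR : PAR_stmt) (hSEQ : SEQ_stmt) (hLV1 : LV1_stmt) (hLVS : LVS_stmt) : CHN_stmt := by
  intro ι _ X hX hX1 κ a K p G hκ hκ2 ha ha8 hm hp hK hG ρ hρ
  obtain ⟨P, hP, h0, hi⟩ := hPAR κ a (Fintype.card ι) K hκ hκ2 ha ha8 hm hK
  have hK1 := CHN_K hκ hκ2 ha ha8 hm hK
  have hS := hSEQ κ a P (Fintype.card ι) hκ hκ2 ha hP
  obtain ⟨-, -, -, -, hpos, hle, hsum, -, -, -, hs, -, -⟩ := hS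
  have hLev : ∀ i : ℕ, 1 ≤ i → Lev X G κ a P (Fintype.card ι) p i := by
    intro i h1
    induction i, h1 using Nat.le_induction with
    | base => exact hLV1 ι X hX hX1 κ a P K p G hκ hκ2 ha ha8 hP hK1 hp h0 hG
    | succ i h1 ih =>
      exact hLVS ι X hX hX1 κ a P (Fintype.card ι) p G i hκ hκ2 ha ha8 hP h1 (hi i h1) ih
  obtain ⟨n, hn⟩ : ∃ n : ℕ, a / ρ < 2 ^ n := pow_unbounded_of_one_lt _ (by norm_num)
  have hn2 : a / 2 ^ (n + 1) ≤ ρ := by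
    rw [div_lt_iff₀ hρ] at hn
    rw [div_le_iff₀ (by positivity), pow_succ]
    have h3 : (0 : ℝ) < 2 ^ n := by positivity
    nlinarith
  obtain ⟨ι', _, p', N, -, hmem, -, hcost, hocc⟩ := hLev (n + 1) (by omega)
  refine ⟨N, aa P a (n + 1), hpos _, (hle _).trans hn2, ?_, ?_⟩
  · intro ℓ A hA hpA
    refine CHN_mono (hcost ℓ A hA hpA) ?_
    have := hsum (n + 1)
    linarith
  · intro g hg
    obtain ⟨l, hl⟩ := hocc g hg
    refine ⟨p' l, hmem l, hl.trans ?_⟩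
    exact mul_le_mul_of_nonneg_right (hs (n + 1)).2 (sq_nonneg _)

end Pool.Agent.MW
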