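import Pool.Agent.helper60.MW.Spec

/-!
Row mw:EXT. Extension of a short curve by a segment.
-/

set_option autoImplicit false

namespace Pool.Agent.MW

open MeasureTheory Set Pool.Agent.helper17.Worm

/-- the two clamped times are nonnegative, monotone and their sum is `1`-Lipschitz -/
theorem EXT_clamp (c h s t : ℝ) (hc : 0 < c) (hh : 0 < h) (hst : s ≤ t) :
    |max 0 (min s c) - max 0 (min t c)| + |max 0 (min (s - c) h) - max 0 (min (t - c) h)| ≤ t - s := by
  have h1 : max 0 (min s c) ≤ max 0 (min t c) := max_le_max_left 0 (min_le_min_right c hst)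
  have h2 : max 0 (min (s - c) h) ≤ max 0 (min (t - c) h) :=
    max_le_max_left 0 (min_le_min_right h (by linarith))
  rw [abs_of_nonpos (by linarith), abs_of_nonpos (by linarith)]
  have key : ∀ x : ℝ, max 0 (min x c) + max 0 (min (x - c) h) = max 0 (min x (c + h)) := by
    intro x
    rcases le_total x c with h3 | h3
    · rw [min_eq_left h3, min_eq_left (by linarith : x - c ≤ h), max_eq_left (by linarith : x - c ≤ 0),
        min_eq_left (by linarith : x ≤ c + h), add_zero]
    · rw [min_eq_right h3, max_eq_right hc.le]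
      rcases le_total (x - c) h with h4 | h4
      · rw [min_eq_left h4, max_eq_right (by linarith : 0 ≤ x - c), min_eq_left (by linarith : x ≤ c + h),
          max_eq_right (by linarith : 0 ≤ x)]
        ring
      · rw [min_eq_right h4, max_eq_right hh.le, min_eq_right (by linarith : c + h ≤ x),
          max_eq_right (by linarith : 0 ≤ c + h)]
  have k1 := key s
  have k2 := key t
  have h5 : max 0 (min t (c + h)) - max 0 (min s (c + h)) ≤ t - s := by
    rcases le_total t (c + h) with h6 | h6
    · rw [min_eq_left h6, min_eq_left (by linarith : s ≤ c + h)]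
      rcases le_total 0 t with h7 | h7
      · rw [max_eq_right h7]
        have := le_max_right 0 s
        linarith
      · rw [max_eq_left h7]
        have := le_max_left 0 s
        linarith
    · rw [min_eq_right h6, max_eq_right (by linarith : 0 ≤ c + h)]
      rcases le_total s (c + h) with h7 | h7
      · rw [min_eq_left h7]
        have := le_max_right 0 s
        linarith
      · rw [min_eq_right h7, max_eq_right (by linarith : 0 ≤ c + h)]
        linarith
  linarith

theorem EXT : EXT_stmt := by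
  intro c f hc hc1 hf
  have hh : 0 < (1 - c) / 2 := by linarith
  have hG : ∀ t : ℝ, max 0 (min t c) / c ∈ Icc (0 : ℝ) 1 := by
    intro t
    refine ⟨div_nonneg (le_max_left _ _) hc.le, ?_⟩
    rw [div_le_one hc]
    exact max_le hc.le (min_le_right _ _)
  have hord : ∀ s t : ℝ, s ≤ t →
      ‖(f (max 0 (min s c) / c) - f 0 + ((max 0 (min (s - c) ((1 - c) / 2)) : ℝ) : ℂ)) -
        (f (max 0 (min t c) / c) - f 0 + ((max 0 (min (t - c) ((1 - c) / 2)) : ℝ) : ℂ))‖ ≤ t - s := by
    intro s t hst
    have e : (f (max 0 (min s c) / c) - f 0 + ((max 0 (min (s - c) ((1 - c) / 2)) : ℝ) : ℂ)) -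
        (f (max 0 (min t c) / c) - f 0 + ((max 0 (min (t - c) ((1 - c) / 2)) : ℝ) : ℂ)) =
        (f (max 0 (min s c) / c) - f (max 0 (min t c) / c)) +
        ((max 0 (min (s - c) ((1 - c) / 2)) - max 0 (min (t - c) ((1 - c) / 2)) : ℝ) : ℂ) := by
      rw [Complex.ofReal_sub]; ring
    rw [e]
    refine (norm_add_le _ _).trans ?_
    rw [Complex.norm_real, Real.norm_eq_abs]
    have h1 := hf _ (hG s) _ (hG t)
    have h2 : c * |max 0 (min s c) / c - max 0 (min t c) / c| = |max 0 (min s c) - max 0 (min t c)| := by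
      rw [← sub_div, abs_div, abs_of_pos hc]
      field_simp
    rw [h2] at h1
    have h3 := EXT_clamp c ((1 - c) / 2) s t hc hh hst
    linarith
  refine ⟨fun t => f (max 0 (min t c) / c) - f 0 + ((max 0 (min (t - c) ((1 - c) / 2)) : ℝ) : ℂ),
    ?_, ?_, ?_, ?_⟩
  · refine LipschitzWith.of_dist_le_mul ?_
    intro s t
    rw [NNReal.coe_one, one_mul, dist_eq_norm, Real.dist_eq]
    rcases le_total s t with hst | hst
    · refine (hord s t hst).trans ?_
      rw [abs_sub_comm]
      exact le_abs_self _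
    · rw [norm_sub_rev]
      refine (hord t s hst).trans ?_
      exact le_abs_self _
  · show f (max 0 (min 0 c) / c) - f 0 + ((max 0 (min (0 - c) ((1 - c) / 2)) : ℝ) : ℂ) = 0
    rw [min_eq_left hc.le, max_self, zero_div, min_eq_left (by linarith : 0 - c ≤ (1 - c) / 2),
      max_eq_left (by linarith : 0 - c ≤ 0)]
    simp
  · intro x hx
    refine ⟨c * x, ⟨mul_nonneg hc.le hx.1, ?_⟩, ?_⟩
    · have : c * x ≤ c * 1 := mul_le_mul_of_nonneg_left hx.2 hc.le
      linarith
    · show f (max 0 (min (c * x) c) / c) - f 0 +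
        ((max 0 (min (c * x - c) ((1 - c) / 2)) : ℝ) : ℂ) = f x - f 0
      have h1 : c * x ≤ c := by
        have : c * x ≤ c * 1 := mul_le_mul_of_nonneg_left hx.2 hc.le
        linarith
      have h2 : 0 ≤ c * x := mul_nonneg hc.le hx.1
      rw [min_eq_left h1, max_eq_right h2, min_eq_left (by linarith : c * x - c ≤ (1 - c) / 2),
        max_eq_left (by linarith : c * x - c ≤ 0), mul_div_cancel_left₀ x hc.ne']
      simp
  · intro z _
    have e1 : f (max 0 (min c c) / c) - f 0 + ((max 0 (min (c - c) ((1 - c) / 2)) : ℝ) : ℂ) =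
        f 1 - f 0 := by
      rw [min_self, max_eq_right hc.le, div_self hc.ne', sub_self, min_eq_left hh.le, max_self]
      simp
    have e2 : f (max 0 (min ((1 + c) / 2) c) / c) - f 0 +
        ((max 0 (min ((1 + c) / 2 - c) ((1 - c) / 2)) : ℝ) : ℂ) = f 1 - f 0 + (((1 - c) / 2 : ℝ) : ℂ) := by
      have e3 : (1 + c) / 2 - c = (1 - c) / 2 := by ring
      rw [min_eq_right (by linarith : c ≤ (1 + c) / 2), max_eq_right hc.le, div_self hc.ne', e3, min_self,
        max_eq_right hh.le]
    by_cases h1 : (1 - c) / 4 ≤ ‖f 1 - f 0 - z‖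
    · exact ⟨f 1 - f 0, ⟨c, ⟨hc.le, by linarith⟩, e1⟩, h1⟩
    · refine ⟨f 1 - f 0 + (((1 - c) / 2 : ℝ) : ℂ), ⟨(1 + c) / 2, ⟨by linarith, le_refl _⟩, e2⟩, ?_⟩
      have h2 : ‖(((1 - c) / 2 : ℝ) : ℂ)‖ = (1 - c) / 2 := by
        rw [Complex.norm_real, Real.norm_eq_abs, abs_of_pos hh]
      have h3 : (((1 - c) / 2 : ℝ) : ℂ) = (f 1 - f 0 + (((1 - c) / 2 : ℝ) : ℂ) - z) - (f 1 - f 0 - z) := by
        ring
      have h4 := norm_sub_le (f 1 - f 0 + (((1 - c) / 2 : ℝ) : ℂ) - z) (f 1 - f 0 - z)
      rw [← h3, h2] at h4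
      linarith [not_le.1 h1]

end Pool.Agent.MW
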